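import Pool.Agent.Helper59.MB.Goals2

/-!
# Project MB (MP_49a1ce_an): packet EXT, extension to a good word of the next level
-/

set_option autoImplicit false

open MeasureTheory Filter Topology Finset

namespace Pool.Agent.Helper1.MB

open Pool.Agent.Helper59.MB

theorem dvd_P {s : ℕ → ℕ} (hs : StrictMono s) {l k : ℕ} (h : l ≤ k) : P s l ∣ P s k := by
  unfold P
  exact pow_dvd_pow 2 (hs.monotone h)

theorem P_pos (s : ℕ → ℕ) (k : ℕ) : 0 < P s k := by
  unfold P; positivity

theorem div_bound {B M i : ℕ} (hB : 0 < B) (hd : B ∣ M) (hi : M ≤ i) : M ≤ B * (i / B) := by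
  obtain ⟨c, rfl⟩ := hd
  have h1 : c ≤ i / B := by
    rw [Nat.le_div_iff_mul_le hB, mul_comm]
    exact hi
  exact Nat.mul_le_mul_left B h1

theorem t_EXT (hLOC : S_LOC) (hLOP : S_LOP) (hLCS : S_LCS) (hADN : S_ADN) : S_EXT := by
  intro s m _ k hPar w N S₀
  obtain ⟨S1, hS1⟩ := hADN s m k hPar.mono
  set J : ℕ := N / P s k + 1 with hJ
  have hPk : 0 < P s k := P_pos s k
  have hNJ : N < J * P s k := by
    rw [hJ]
    have := Nat.lt_div_mul_add (a := N) hPk
    rw [add_mul, one_mul]
    exact this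
  set T : ℕ := 2 * (k + 1) * (J * P s k) with hT
  set S : ℕ := s k + S₀ + S1 + T + N with hS
  set s' : ℕ → ℕ := fun i => if i ≤ k then s i else S + i with hs'
  have hs'le : ∀ i ≤ k, s' i = s i := fun i hi => by simp [hs', hi]
  have hs'k1 : s' (k + 1) = S + (k + 1) := by simp [hs']
  have hmono : StrictMono s' := by
    intro i j hij
    by_cases hj : j ≤ k
    · rw [hs'le i (by omega), hs'le j hj]
      exact hPar.mono hij
    · have h2 : s' j = S + j := by simp [hs', hj]
      by_cases hi : i ≤ k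
      · rw [hs'le i hi, h2]
        have := hPar.mono.monotone hi
        omega
      · have h3 : s' i = S + i := by simp [hs', hi]
        rw [h2, h3]; omega
  have hR : S + (k + 1) < P s' (k + 1) := by
    unfold P
    rw [hs'k1]
    exact Nat.lt_two_pow_self
  have hTR : T ≤ P s' (k + 1) := by omega
  have hNR : N < P s' (k + 1) := by omega
  have hagree : ∀ i ≤ k, s i = s' i := fun i hi => (hs'le i hi).symm
  obtain ⟨hev, hPhi, hE, _⟩ := hLCS s s' V1 m k hagree
  have hPk' : P s' k = P s k := by unfold P; rw [hs'le k le_rfl]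
  have hAdmk : Adm s' V1 m k := hS1 s' hmono hs'le (by rw [hs'k1]; omega)
  have hPar' : Par s' V1 m (k + 1) := by
    refine ⟨hmono, hPar.fin, hPar.one, hPar.le, ?_⟩
    intro j hj
    rcases Nat.lt_succ_iff_lt_or_eq.1 hj with hjk | hjk
    · obtain ⟨_, _, _, h4⟩ := hLCS s s' V1 m j (fun i hi => hagree i (by omega))
      exact (h4 (hagree (j + 1) (by omega))).2.2.1 (hPar.adm j hjk)
    · rw [hjk]; exact hAdmk
  refine ⟨s', hs'le, by rw [hs'k1]; omega, hPar', hNR, ?_⟩
  -- a half-good word
  have hex : ∃ w₁ : Wd, HGood s' V1 m k (cat s' k (Phi s' V1 m k) w₁) := by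
    by_contra hne
    push Not at hne
    have h1 : {w | ¬ HGood s' V1 m k (cat s' k (Phi s' V1 m k) w)} = Set.univ := by
      ext x
      simp only [Set.mem_setOf_eq, Set.mem_univ, iff_true]
      exact hne x
    have h2 := hAdmk.1
    rw [h1] at h2
    haveI : IsProbabilityMeasure (Q m) := by unfold Q; infer_instance
    have h3 : (Q m).real Set.univ = 1 := by simp
    rw [h3] at h2
    have h4 : ((1 : ℝ) / 2) ^ (k + 2) / (P s' (k + 1) : ℝ) < 1 := by
      have h5 : (1 : ℝ) ≤ (P s' (k + 1) : ℝ) := by exact_mod_cast P_pos s' (k + 1)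
      have h6 : ((1 : ℝ) / 2) ^ (k + 2) < 1 := by
        apply pow_lt_one₀ (by norm_num) (by norm_num) (by omega)
      have h7 : ((1 : ℝ) / 2) ^ (k + 2) / (P s' (k + 1) : ℝ) ≤ ((1 : ℝ) / 2) ^ (k + 2) :=
        div_le_self (by positivity) h5
      linarith
    linarith
  obtain ⟨w₁, hw₁⟩ := hex
  set w' : Wd := fun i => if i < J * P s k then w i else w₁ i with hw'
  have hΦ : Phi s' V1 m k = Phi s V1 m k := hPhi.symm
  set Φ := Phi s V1 m k with hΦd
  rw [hΦ] at hw₁ ⊢
  -- comparison of the words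
  have hlow : ∀ i < J * P s k, cat s' k Φ w' i = cat s k Φ w i := by
    intro i hi
    unfold cat
    rw [hPk']
    apply (hLOP s V1 m hPar.mono).2.1 k _ _ _ _ (Nat.mod_lt _ hPk)
    intro a ha
    unfold from'
    rw [hw']
    simp only
    rw [if_pos]
    have h1 : i / P s k < J := by
      rw [Nat.div_lt_iff_lt_mul hPk]; exact hi
    calc P s k * (i / P s k) + a < P s k * (i / P s k) + P s k := by omega
      _ = P s k * (i / P s k + 1) := by ring
      _ ≤ P s k * J := Nat.mul_le_mul_left _ h1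
      _ = J * P s k := mul_comm _ _
  have hhigh : ∀ i, J * P s k ≤ i → cat s' k Φ w' i = cat s' k Φ w₁ i := by
    intro i hi
    unfold cat
    rw [hPk']
    have h1 : from' (P s k * (i / P s k)) w' = from' (P s k * (i / P s k)) w₁ := by
      funext a
      unfold from'
      rw [hw']
      simp only
      rw [if_neg]
      have := div_bound hPk (Dvd.intro_left J rfl) hi
      omega
    rw [h1]
  refine ⟨w', fun i hi => hlow i (by omega), ?_⟩
  set W' := cat s' k Φ w' with hW'
  set W1 := cat s' k Φ w₁ with hW1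
  have hevh : ∀ l ≤ k, ∀ i, J * P s k ≤ i → ev s' l W' i = ev s' l W1 i := by
    intro l hl i hi
    apply (hLOC s' hmono).1 l i
    intro a ha j _
    have h1 : J * P s k ≤ a := by
      have hd : P s' l ∣ J * P s k := by
        rw [← hPk']
        exact dvd_mul_of_dvd_right (dvd_P hmono hl) _
      have h2 := div_bound (P_pos s' l) hd hi
      rw [← ha] at h2
      exact h2.trans (Nat.mul_div_le a _)
    rw [hhigh a h1]
  -- the estimate
  intro l hl i₁ i₂ h12 hi₂ v hv
  have hv1 : v = fun _ => (1 : ℝ) := hv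
  have hgood := hw₁ l hl i₁ i₂ h12 hi₂ v hv
  have hdiff : |∑ i ∈ Ico i₁ i₂, (ev s' l W' i - ev s' l W1 i) * v i| ≤ (J * P s k : ℕ) := by
    calc |∑ i ∈ Ico i₁ i₂, (ev s' l W' i - ev s' l W1 i) * v i|
        ≤ ∑ i ∈ Ico i₁ i₂, |(ev s' l W' i - ev s' l W1 i) * v i| := abs_sum_le_sum_abs _ _
      _ ≤ ∑ i ∈ Ico i₁ i₂, (if i < J * P s k then (1 : ℝ) else 0) := by
          apply sum_le_sum
          intro i _
          rw [hv1]
          simp only [mul_one]
          by_cases hi : i < J * P s k
          · rw [if_pos hi, abs_le]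
            have h1 := (hLOC s' hmono).2.2 l i W'
            have h2 := (hLOC s' hmono).2.2 l i W1
            constructor <;> linarith [h1.1, h1.2, h2.1, h2.2]
          · rw [if_neg hi, hevh l hl i (by omega), sub_self, abs_zero]
      _ = (((Ico i₁ i₂).filter (fun i => i < J * P s k)).card : ℝ) := by
          rw [← sum_filter, sum_const, nsmul_eq_mul, mul_one]
      _ ≤ ((range (J * P s k)).card : ℝ) := by
          have : (Ico i₁ i₂).filter (fun i => i < J * P s k) ⊆ range (J * P s k) := by
            intro i hi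
            rw [mem_filter] at hi
            exact mem_range.2 hi.2
          exact_mod_cast card_le_card this
      _ = (J * P s k : ℕ) := by rw [card_range]
  have hsplit : ∑ i ∈ Ico i₁ i₂, (ev s' l W' i - E s' V1 m k l (i % P s' k)) * v i =
      ∑ i ∈ Ico i₁ i₂, (ev s' l W1 i - E s' V1 m k l (i % P s' k)) * v i +
        ∑ i ∈ Ico i₁ i₂, (ev s' l W' i - ev s' l W1 i) * v i := by
    rw [← sum_add_distrib]
    apply sum_congr rfl
    intro i _
    ring
  rw [hsplit]
  refine (abs_add_le _ _).trans ?_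
  have hTR' : (2 : ℝ) * (k + 1) * ((J * P s k : ℕ) : ℝ) ≤ (P s' (k + 1) : ℝ) := by
    have := hTR
    rw [hT] at this
    exact_mod_cast this
  have hk : (0 : ℝ) < k + 1 := by positivity
  have h8 : ((J * P s k : ℕ) : ℝ) ≤ 1 / (2 * (k + 1)) * P s' (k + 1) := by
    rw [div_mul_eq_mul_div, one_mul, le_div_iff₀ (by positivity)]
    linarith
  have h9 : (1 : ℝ) / (k + 1) * P s' (k + 1) =
      1 / (2 * (k + 1)) * P s' (k + 1) + 1 / (2 * (k + 1)) * P s' (k + 1) := by
    field_simp
    ring
  rw [h9]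
  exact add_le_add hgood (hdiff.trans h8)

end Pool.Agent.Helper1.MB
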